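import Pool.Agent.Helper3.FC.Goals

/-!
# Project FC (MP_766b49_co), packet F8
-/

set_option autoImplicit false

namespace Pool.Agent.Helper83.FC.F8

open scoped Classical BigOperators
open Pool.Agent.Helper3.FC

variable {m n w kz L : ℕ} {η : ℝ}

theorem sum_R (W : World m n w kz L η) : ∑ g : ∀ l, W.J l, W.R g = 1 := by
  unfold World.R
  have h := Finset.prod_univ_sum (fun l => (Finset.univ : Finset (W.J l))) (fun l i => W.ρ l i)
  rw [Fintype.piFinset_univ] at h
  rw [← h]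
  exact Finset.prod_eq_one fun l _ => W.ρ_sum l

theorem R_nonneg (W : World m n w kz L η) (g : ∀ l, W.J l) : 0 ≤ W.R g :=
  Finset.prod_nonneg fun l _ => W.ρ_nonneg l _

theorem YX_mem (W : World m n w kz L η) {j : ℕ} (hj : j < L) : 0 ≤ W.YX j ∧ W.YX j ≤ 1 := by
  constructor
  · exact Finset.sum_nonneg fun g _ => mul_nonneg (R_nonneg W g) (W.yX_nonneg j hj g)
  · calc W.YX j ≤ ∑ g : ∀ l, W.J l, W.R g :=
          Finset.sum_le_sum fun g _ => mul_le_of_le_one_right (R_nonneg W g) (W.yX_le j hj g)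
      _ = 1 := sum_R W

theorem mix_mem {η : ℝ} (h0 : 0 ≤ η) (h1 : η ≤ 1) (y : ℕ → ℝ) (L : ℕ)
    (hy : ∀ j < L, 0 ≤ y j ∧ y j ≤ 1) : ∀ j ≤ L, 0 ≤ mix η y j ∧ mix η y j ≤ 1 := by
  intro j
  induction j with
  | zero => intro _; simp [mix]
  | succ j ih =>
    intro hj
    obtain ⟨a, b⟩ := ih (by omega)
    obtain ⟨c, d⟩ := hy j (by omega)
    constructor
    · simp only [mix]
      have e1 : 0 ≤ (1 - η) * mix η y j := mul_nonneg (by linarith) a
      have e2 : 0 ≤ η * y j := mul_nonneg h0 c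
      linarith
    · simp only [mix]
      have e1 : (1 - η) * mix η y j ≤ (1 - η) * 1 := mul_le_mul_of_nonneg_left b (by linarith)
      have e2 : η * y j ≤ η * 1 := mul_le_mul_of_nonneg_left d h0
      linarith

theorem blk (W : World m n w kz L η) (B : ∀ l, W.J l → Prop) (l : Fin n) :
    ∑ i, W.ρ l i * (if B l i then W.x l i else 0) =
      (∑ j ∈ Finset.range L, ∑ g : ∀ l, W.J l, W.R g * W.yX j g *
        (if B l (g l) then (1 : ℝ) else 0)) / L := by
  have h1 : ∀ i, W.ρ l i * (if B l i then W.x l i else 0) =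
      ∑ j ∈ Finset.range L, ∑ g : ∀ l, W.J l,
        (if g l = i then (if B l i then W.R g * W.yX j g else 0) else 0) / L := by
    intro i
    unfold World.x
    by_cases hB : B l i
    · simp only [hB, if_true]
      rw [Finset.sum_div, Finset.mul_sum]
      refine Finset.sum_congr rfl fun j _ => ?_
      rw [Finset.sum_div, Finset.mul_sum]
      refine Finset.sum_congr rfl fun g _ => ?_
      by_cases hg : g l = i
      · simp only [hg, if_true]
        have : W.R g = W.ρ l i * ∏ l' ∈ Finset.univ.erase l, W.ρ l' (g l') := by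
          unfold World.R
          rw [← Finset.mul_prod_erase Finset.univ _ (Finset.mem_univ l), hg]
        rw [this]
        ring
      · simp [hg]
    · simp [hB]
  rw [Finset.sum_congr rfl (fun i _ => h1 i), Finset.sum_comm, Finset.sum_div]
  refine Finset.sum_congr rfl fun j _ => ?_
  rw [Finset.sum_comm, Finset.sum_div]
  refine Finset.sum_congr rfl fun g _ => ?_
  rw [Finset.sum_eq_single (g l)]
  · by_cases hB : B l (g l) <;> simp [hB]
  · intro i _ hi
    simp [Ne.symm hi]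
  · simp

theorem E_B (W : World m n w kz L η) (B : ∀ l, W.J l → Prop) :
    W.E (fun l i => if B l i then W.x l i else 0) =
      (∑ j ∈ Finset.range L, ∑ g : ∀ l, W.J l, W.R g * W.yX j g *
        (∑ l, if B l (g l) then (1 : ℝ) else 0)) / (n * L) := by
  unfold World.E
  rw [Finset.sum_congr rfl (fun l _ => blk W B l), ← Finset.sum_div, Finset.sum_comm, div_div,
    mul_comm (L : ℝ)]
  congr 1
  refine Finset.sum_congr rfl fun j _ => ?_
  rw [Finset.sum_comm]
  refine Finset.sum_congr rfl fun g _ => ?_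
  rw [Finset.mul_sum]

theorem one_add_le (P : ℝ) : 1 + P ≤ Real.exp (P * Real.log 2 + 597 / 10000) := by
  have hl : 0 < Real.log 2 := Real.log_pos (by norm_num)
  have hl2 : 0.6931471803 < Real.log 2 := Real.log_two_gt_d9
  have h1 : (1 + P) * Real.log 2 ≤ Real.exp ((1 + P) * Real.log 2 - 1) := by
    have := Real.add_one_le_exp ((1 + P) * Real.log 2 - 1)
    linarith
  have h2 : 2 ≤ Real.log 2 * Real.exp (1 + 597 / 10000) := by
    rw [Real.exp_add]
    have e1 : (2.7182818283 : ℝ) < Real.exp 1 := Real.exp_one_gt_d9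
    have e2 : 1 + (597 / 10000 : ℝ) + (597 / 10000) ^ 2 / 2 ≤ Real.exp (597 / 10000) :=
      Real.quadratic_le_exp_of_nonneg (by norm_num)
    have e3 : (2.7182818283 : ℝ) * (1 + (597 / 10000 : ℝ) + (597 / 10000) ^ 2 / 2) ≤
        Real.exp 1 * Real.exp (597 / 10000) :=
      mul_le_mul e1.le e2 (by norm_num) (Real.exp_pos _).le
    have e4 : (0.6931471803 : ℝ) * (2.7182818283 * (1 + (597 / 10000 : ℝ) +
        (597 / 10000) ^ 2 / 2)) ≤ Real.log 2 * (Real.exp 1 * Real.exp (597 / 10000)) :=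
      mul_le_mul hl2.le e3 (by norm_num) hl.le
    refine le_trans ?_ e4
    norm_num
  have h3 : Real.exp ((1 + P) * Real.log 2 - 1) * 2 =
      Real.exp (P * Real.log 2 + 597 / 10000) * (2 * 2 / Real.exp (1 + 597 / 10000)) := by
    rw [mul_div_assoc', eq_div_iff (Real.exp_pos _).ne', mul_right_comm, ← Real.exp_add]
    have : (1 + P) * Real.log 2 - 1 + (1 + 597 / 10000) =
        (P * Real.log 2 + 597 / 10000) + Real.log 2 := by ring
    rw [this, Real.exp_add, Real.exp_log (by norm_num)]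
    ring
  have h4 : 2 * 2 / Real.exp (1 + 597 / 10000) ≤ 2 * Real.log 2 := by
    rw [div_le_iff₀ (Real.exp_pos _)]
    linarith
  have h5 : Real.exp ((1 + P) * Real.log 2 - 1) * 2 ≤
      Real.exp (P * Real.log 2 + 597 / 10000) * (2 * Real.log 2) := by
    rw [h3]
    exact mul_le_mul_of_nonneg_left h4 (Real.exp_pos _).le
  have h6 : (1 + P) * Real.log 2 ≤
      Real.exp (P * Real.log 2 + 597 / 10000) * Real.log 2 := by linarith
  exact le_of_mul_le_mul_right h6 hl


theorem prod_bd (W : World m n w kz L η) (B : ∀ l, W.J l → Prop)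
    (ha : ∀ l k, 0 ≤ W.a l k ∧ W.a l k ≤ 1) (hf : ∀ l, 0 < W.f l) :
    ∏ l, (W.f l + ∑ i, if B l i then W.ρ l i else 0) ≤
      Real.exp (-(∑ l, ∑ k, W.a l k) + Real.log 2 * (∑ l, (∑ i, if B l i then W.ρ l i else 0) /
        W.f l) + 597 / 10000 * n) := by
  have hb : ∀ l, 0 ≤ ∑ i, (if B l i then W.ρ l i else 0) := by
    intro l
    refine Finset.sum_nonneg fun i _ => ?_
    split_ifs
    · exact W.ρ_nonneg l i
    · exact le_rfl
  have h1 : ∀ l, W.f l + ∑ i, (if B l i then W.ρ l i else 0) ≤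
      Real.exp (-(∑ k, W.a l k) + ((∑ i, if B l i then W.ρ l i else 0) / W.f l * Real.log 2 +
        597 / 10000)) := by
    intro l
    have e1 : W.f l + ∑ i, (if B l i then W.ρ l i else 0) =
        W.f l * (1 + (∑ i, if B l i then W.ρ l i else 0) / W.f l) := by
      rw [mul_add, mul_div_cancel₀ _ (hf l).ne', mul_one]
    have e2 : W.f l ≤ Real.exp (-(∑ k, W.a l k)) := by
      have e3 : W.f l = ∏ k, (1 - W.a l k) := W.F_mass l
      rw [e3, ← Finset.sum_neg_distrib, Real.exp_sum]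
      exact Finset.prod_le_prod (fun k _ => by linarith [(ha l k).2])
        fun k _ => Real.one_sub_le_exp_neg _
    rw [e1, Real.exp_add]
    exact mul_le_mul e2 (one_add_le _) (by have := div_nonneg (hb l) (hf l).le; linarith)
      (Real.exp_pos _).le
  calc ∏ l, (W.f l + ∑ i, if B l i then W.ρ l i else 0)
      ≤ ∏ l, Real.exp (-(∑ k, W.a l k) + ((∑ i, if B l i then W.ρ l i else 0) / W.f l *
        Real.log 2 + 597 / 10000)) :=
        Finset.prod_le_prod (fun l _ => add_nonneg (hf l).le (hb l)) fun l _ => h1 l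
    _ = _ := by
      rw [← Real.exp_sum]
      congr 1
      rw [Finset.sum_add_distrib, Finset.sum_add_distrib, Finset.sum_neg_distrib,
        ← Finset.sum_mul, Finset.sum_const, Finset.card_univ, Fintype.card_fin, nsmul_eq_mul]
      ring

/-- One level. -/
theorem level (hb : HBStmt) (W : World m n w kz L η) (B : ∀ l, W.J l → Prop)
    (hB : ∀ l i, B l i → W.F l i) (hn : 1 ≤ n) (h0 : 0 ≤ η) (h1 : η ≤ 1)
    (ha : ∀ l k, 0 ≤ W.a l k ∧ W.a l k ≤ 1) (hf : ∀ l, 0 < W.f l) {j : ℕ} (hj : j < L)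
    (Λ : ℝ) (hΛ : 0 < Λ) :
    Real.log 2 * ∑ g : ∀ l, W.J l, W.R g * W.yX j g * (∑ l, if B l (g l) then (1 : ℝ) else 0) ≤
      Λ / 100000 + (Real.log 2 - 2 * m * mix η W.YX j - (∑ l, ∑ k, W.a l k) +
        Real.log 2 * (∑ l, (∑ i, if B l i then W.ρ l i else 0) / W.f l) + 597 / 10000 * n +
        Real.log (100000 / Λ) - 1) * W.YX j := by
  set SA := ∑ l, ∑ k, W.a l k with hSA
  set SP := ∑ l, (∑ i, if B l i then W.ρ l i else 0) / W.f l with hSP
  obtain ⟨hM0, hM1⟩ := mix_mem h0 h1 W.YX L (fun j hj => YX_mem W hj) j hj.le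
  set M := mix η W.YX j with hM
  set e := Real.log 2 - 2 * m * M - SA + Real.log 2 * SP + 597 / 10000 * n with he
  have h2 := hb m n w kz L η W hn h0 h1 B hB j hj (e + Real.log (100000 / Λ))
  have h3 : 2 * (1 - M) ^ (2 * m) * ∏ l, (W.f l + ∑ i, if B l i then W.ρ l i else 0) ≤
      Real.exp e := by
    have e1 : (1 - M) ^ (2 * m) ≤ Real.exp (-(2 * m * M)) := by
      calc (1 - M) ^ (2 * m) ≤ (Real.exp (-M)) ^ (2 * m) :=
            pow_le_pow_left₀ (by linarith) (Real.one_sub_le_exp_neg M) _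
        _ = Real.exp (-(2 * m * M)) := by
            rw [← Real.exp_nat_mul]
            congr 1
            push_cast
            ring
    have e2 := prod_bd W B ha hf
    have e3 : Real.exp e = 2 * Real.exp (-(2 * m * M)) *
        Real.exp (-SA + Real.log 2 * SP + 597 / 10000 * n) := by
      have : e = Real.log 2 + (-(2 * m * M)) + (-SA + Real.log 2 * SP + 597 / 10000 * n) := by
        rw [he]; ring
      rw [this, Real.exp_add, Real.exp_add, Real.exp_log (by norm_num)]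
    rw [e3]
    refine mul_le_mul (mul_le_mul_of_nonneg_left e1 (by norm_num)) e2 ?_ (by positivity)
    refine Finset.prod_nonneg fun l _ => add_nonneg (hf l).le (Finset.sum_nonneg fun i _ => ?_)
    split_ifs
    · exact W.ρ_nonneg l i
    · exact le_rfl
  have h4 : Real.exp (-(e + Real.log (100000 / Λ))) * (2 * (1 - M) ^ (2 * m) *
      ∏ l, (W.f l + ∑ i, if B l i then W.ρ l i else 0)) ≤ Λ / 100000 := by
    calc _ ≤ Real.exp (-(e + Real.log (100000 / Λ))) * Real.exp e :=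
          mul_le_mul_of_nonneg_left h3 (Real.exp_pos _).le
      _ = Λ / 100000 := by
          rw [← Real.exp_add]
          have : -(e + Real.log (100000 / Λ)) + e = -Real.log (100000 / Λ) := by ring
          rw [this, Real.exp_neg, Real.exp_log (by positivity), inv_div]
  linarith


/-- The middle term. -/
theorem mid_ineq (X A Λ η L T : ℝ) (hΛ : 0 < Λ) (hη : η = Λ / 100000) (hL : 0 < L)
    (hc0 : 0 ≤ 2 * Λ - A) (hc2 : 2 * Λ - A ≤ 2 * Λ)
    (hLbig : 8 / (η * L) ≤ Λ / 100000)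
    (hT : T ≤ (2 * Λ - A) * ((2 * Λ - A) * L - L * X) + 2 * (2 * Λ - A) / η + η * (L * X)) :
    4 * (T / (2 * Λ * L)) ≤ 4 * (2 * Λ - A) * (1 - (A + X) / (2 * Λ)) + Λ / 100000 +
      2 * X / 100000 := by
  have hη0 : 0 < η := by rw [hη]; positivity
  obtain ⟨c, hc⟩ : ∃ c, c = 2 * Λ - A := ⟨_, rfl⟩
  have hA : A = 2 * Λ - c := by linarith
  subst hA
  have hcc : 2 * Λ - (2 * Λ - c) = c := by ring
  rw [hcc] at hc0 hc2 hT ⊢
  have h1 : 4 * (T / (2 * Λ * L)) = 2 / (Λ * L) * T := by field_simp; ring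
  have h2 : 2 / (Λ * L) * T ≤ 2 / (Λ * L) * (c * (c * L - L * X) + 2 * c / η +
      η * (L * X)) := mul_le_mul_of_nonneg_left hT (by positivity)
  have h3 : 2 / (Λ * L) * (c * (c * L - L * X) + 2 * c / η + η * (L * X)) =
      2 / Λ * (c * (c - X)) + (4 * c / Λ) / (η * L) + 2 * (η / Λ) * X := by
    field_simp
    ring
  have h4 : (4 * c / Λ) / (η * L) ≤ 8 / (η * L) := by
    apply div_le_div_of_nonneg_right _ (by positivity)
    rw [div_le_iff₀ hΛ]
    linarith
  have h5 : η / Λ = 1 / 100000 := by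
    rw [hη]
    field_simp
  have h6 : 4 * c * (1 - (2 * Λ - c + X) / (2 * Λ)) = 2 / Λ * (c * (c - X)) := by
    field_simp
    ring
  rw [h1, h6]
  rw [h3, h5] at h2
  linarith

/-- The final inequality, for numbers. -/
theorem fin_ineq (E X A Λ η L n D SP T S : ℝ) (hΛ : 0 < Λ) (hη : η = Λ / 100000) (hL : 0 < L)
    (hn : 100000 ≤ n)
    (hκ1 : 4 * (n * Real.log 2) ≤ D) (hκ2 : D ≤ (4 + 1 / 100000) * (n * Real.log 2))
    (hE : E = S / (n * L)) (hA0 : 0 ≤ A) (hA1 : A ≤ 2 * Λ)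
    (hX0 : 0 ≤ X)
    (hLbig : 8 / (η * L) ≤ Λ / 100000)
    (hT : T ≤ (2 * Λ - A) * ((2 * Λ - A) * L - L * X) + 2 * (2 * Λ - A) / η + η * (L * X))
    (hT2 : T ≤ 2 * Λ * (L * X))
    (hS : Real.log 2 * S ≤ L * (Λ / 100000) + D / (2 * Λ) * T +
      (Real.log 2 * SP + 597 / 10000 * n + 12) * (L * X)) :
    E ≤ X * (SP / n + 87 / 1000) + 4 * (2 * Λ - A) * (1 - (A + X) / (2 * Λ)) + Λ / 1000 := by
  have hl1 : 0.6931471803 < Real.log 2 := Real.log_two_gt_d9
  obtain ⟨l, hl⟩ : ∃ l, l = Real.log 2 := ⟨_, rfl⟩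
  rw [← hl] at hl1 hκ1 hκ2 hS
  have hl0 : 0 < l := by linarith
  have hn0 : 0 < n := by linarith
  have hnl : 0 < n * l := mul_pos hn0 hl0
  have hnl2 : 60000 ≤ n * l := by nlinarith
  -- divide by `n * L * l`
  have e1 : E ≤ Λ / 100000 * (1 / (n * l)) + D / (n * l) * (T / (2 * Λ * L)) +
      (SP / n + 597 / 10000 / l + 12 / (n * l)) * X := by
    rw [hE, div_le_iff₀ (by positivity)]
    have : (Λ / 100000 * (1 / (n * l)) + D / (n * l) * (T / (2 * Λ * L)) +
        (SP / n + 597 / 10000 / l + 12 / (n * l)) * X) * (n * L) =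
        (L * (Λ / 100000) + D / (2 * Λ) * T + (l * SP + 597 / 10000 * n + 12) * (L * X)) / l := by
      field_simp
    rw [this, le_div_iff₀ hl0]
    linarith
  have hκ1' : 4 ≤ D / (n * l) := by rw [le_div_iff₀ hnl]; linarith
  have hκ2' : D / (n * l) ≤ 4 + 1 / 100000 := by rw [div_le_iff₀ hnl]; linarith
  have hTX : T / (2 * Λ * L) ≤ X := by
    rw [div_le_iff₀ (by positivity)]
    linarith
  have e2 : D / (n * l) * (T / (2 * Λ * L)) ≤ 4 * (T / (2 * Λ * L)) + 1 / 100000 * X := by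
    have h1 : (D / (n * l) - 4) * (T / (2 * Λ * L)) ≤ (D / (n * l) - 4) * X :=
      mul_le_mul_of_nonneg_left hTX (by linarith)
    have h2 : (D / (n * l) - 4) * X ≤ 1 / 100000 * X :=
      mul_le_mul_of_nonneg_right (by linarith) hX0
    linarith
  have e3 := mid_ineq X A Λ η L T hΛ hη hL (by linarith) (by linarith) hLbig hT
  have e5 : Λ / 100000 * (1 / (n * l)) ≤ Λ / 100000 := by
    have : 1 / (n * l) ≤ 1 := by
      rw [div_le_one hnl]
      linarith
    calc Λ / 100000 * (1 / (n * l)) ≤ Λ / 100000 * 1 :=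
          mul_le_mul_of_nonneg_left this (by positivity)
      _ = Λ / 100000 := mul_one _
  have e6 : (SP / n + 597 / 10000 / l + 12 / (n * l)) * X ≤ X * (SP / n + 869 / 10000) := by
    have h1 : 597 / 10000 / l ≤ 8614 / 100000 := by
      rw [div_le_iff₀ hl0]
      linarith
    have h2 : 12 / (n * l) ≤ 2 / 10000 := by
      rw [div_le_iff₀ hnl]
      linarith
    have h3 : SP / n + 597 / 10000 / l + 12 / (n * l) ≤ SP / n + 869 / 10000 := by linarith
    calc _ ≤ (SP / n + 869 / 10000) * X := mul_le_mul_of_nonneg_right h3 hX0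
      _ = _ := mul_comm _ _
  have e7 : X * (SP / n + 869 / 10000) = X * (SP / n + 87 / 1000) - X / 10000 := by ring
  rw [e7] at e6
  linarith

/-- The logarithm. -/
theorem log_bd (D Λ : ℝ) (m : ℝ) (hm : 0 < m) (hΛ : 0 < Λ) (hD : D = Real.log (4 * m))
    (hΛD : Λ * (4 * m) = D) (hD1 : 1 ≤ D) : Real.log (100000 / Λ) ≤ 118 / 10 + D := by
  have hl2 : Real.log 2 < 0.6931471808 := Real.log_two_lt_d9
  have e1 : (100000 : ℝ) / Λ ≤ 2 ^ 17 * (4 * m) := by
    rw [div_le_iff₀ hΛ]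
    have : (2 : ℝ) ^ 17 * (4 * m) * Λ = 2 ^ 17 * D := by rw [← hΛD]; ring
    rw [this]
    linarith
  have e2 := Real.log_le_log (by positivity) e1
  rw [Real.log_mul (by positivity) (by positivity), Real.log_pow, ← hD] at e2
  push_cast at e2
  linarith

theorem core (hb : HBStmt) (hs : SEQStmt) (W : World m n w kz L η) (Λ : ℝ)
    (hn : 1 ≤ n) (hw : 1 ≤ w) (hΛ0 : 0 < Λ) (hΛε : Λ < 1 / 100000) (hη : η = Λ / 100000)
    (hLpos : 0 < L) (hΛ : Λ = Real.log (4 * m) / (4 * m))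
    (hκ1 : 4 * (n * Real.log 2) ≤ Real.log (4 * m))
    (hκ2 : Real.log (4 * m) ≤ (4 + 1 / 100000) * (n * Real.log 2))
    (hDn : Real.log (4 * m) / 2 ≤ n * w * Λ + 1 / 100000) (hn5 : (100000 : ℝ) ≤ n)
    (hLbig : 8 / (η * L) ≤ Λ / 100000)
    (h1 : ∀ l k, 0 ≤ W.a l k ∧ W.a l k ≤ Λ * (1 + 1 / 10000))
    (hf : ∀ l, 0 < W.f l) (B : ∀ l, W.J l → Prop) (hB : ∀ l i, B l i → W.F l i) :
    W.E (fun l i => if B l i then W.x l i else 0) ≤
      W.X * ((∑ l, (∑ i, if B l i then W.ρ l i else 0) / W.f l) / n + 87 / 1000) +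
      4 * (2 * Λ - W.A) * (1 - (W.A + W.X) / (2 * Λ)) + Λ / 1000 := by
  have hLr : (0 : ℝ) < L := by exact_mod_cast hLpos
  have hη0 : 0 < η := by rw [hη]; positivity
  have hη1 : η ≤ 1 := by rw [hη]; linarith
  have hnr : (0 : ℝ) < n := by exact_mod_cast hn
  have hwr : (0 : ℝ) < w := by exact_mod_cast hw
  have ha : ∀ l k, 0 ≤ W.a l k ∧ W.a l k ≤ 1 := by
    intro l k
    obtain ⟨e1, e2⟩ := h1 l k
    exact ⟨e1, by linarith⟩
  have hYX : ∀ j < L, 0 ≤ W.YX j ∧ W.YX j ≤ 1 := fun j hj => YX_mem W hj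
  have hX0 : 0 ≤ W.X := by
    unfold World.X
    exact div_nonneg (Finset.sum_nonneg fun j hj => (hYX j (Finset.mem_range.1 hj)).1) hLr.le
  have hSX : ∑ j ∈ Finset.range L, W.YX j = L * W.X := by
    unfold World.X
    rw [mul_div_cancel₀ _ hLr.ne']
  have hSAn : ∑ l, ∑ k, W.a l k = W.A * (n * w) := by
    unfold World.A
    rw [div_mul_cancel₀ _ (by positivity)]
  have hA0 : 0 ≤ W.A := by
    unfold World.A
    exact div_nonneg (Finset.sum_nonneg fun l _ => Finset.sum_nonneg fun k _ => (ha l k).1)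
      (by positivity)
  have hA1 : W.A ≤ Λ * (1 + 1 / 10000) := by
    unfold World.A
    rw [div_le_iff₀ (by positivity)]
    calc ∑ l, ∑ k, W.a l k ≤ ∑ _l : Fin n, ∑ _k : Fin w, Λ * (1 + 1 / 10000) :=
          Finset.sum_le_sum fun l _ => Finset.sum_le_sum fun k _ => (h1 l k).2
      _ = Λ * (1 + 1 / 10000) * (n * w) := by
          simp only [Finset.sum_const, Finset.card_univ, Fintype.card_fin, nsmul_eq_mul]
          ring
  have hA2 : W.A ≤ 2 * Λ := by linarith
  obtain ⟨D, hD⟩ : ∃ D, D = Real.log (4 * m) := ⟨_, rfl⟩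
  rw [← hD] at hκ1 hκ2 hDn hΛ
  have hm0 : (m : ℝ) ≠ 0 := by
    intro h0
    rw [h0] at hΛ
    simp at hΛ
    linarith
  have hmr : (0 : ℝ) < m := lt_of_le_of_ne (Nat.cast_nonneg m) (Ne.symm hm0)
  have hΛD : Λ * (4 * m) = D := by
    rw [hΛ, div_mul_cancel₀ _ (by positivity)]
  have hl1 : 0.6931471803 < Real.log 2 := Real.log_two_gt_d9
  have hl2 : Real.log 2 < 0.6931471808 := Real.log_two_lt_d9
  have hD1 : 1 ≤ D := by
    have : (60000 : ℝ) ≤ n * Real.log 2 := by nlinarith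
    linarith
  have hlog := log_bd D Λ m hmr hΛ0 hD hΛD hD1
  obtain ⟨SP, hSP⟩ : ∃ SP, SP = ∑ l, (∑ i, if B l i then W.ρ l i else 0) / W.f l := ⟨_, rfl⟩
  have hlev : ∀ j ∈ Finset.range L, Real.log 2 * ∑ g : ∀ l, W.J l, W.R g * W.yX j g *
      (∑ l, if B l (g l) then (1 : ℝ) else 0) ≤ Λ / 100000 +
      D / (2 * Λ) * (W.YX j * ((2 * Λ - W.A) - mix η W.YX j)) +
      (Real.log 2 * SP + 597 / 10000 * n + 12) * W.YX j := by
    intro j hj
    have hj' := Finset.mem_range.1 hj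
    refine (level hb W B hB hn hη0.le hη1 ha hf hj' Λ hΛ0).trans ?_
    rw [← hSP, hSAn]
    have hM0 := (mix_mem hη0.le hη1 W.YX L hYX j hj'.le).1
    obtain ⟨M, hM⟩ : ∃ M, M = mix η W.YX j := ⟨_, rfl⟩
    rw [← hM] at hM0 ⊢
    have e1 : 2 * (m : ℝ) * M = D / (2 * Λ) * M := by
      rw [← hΛD]
      field_simp
      ring
    have e2 : D / (2 * Λ) * W.A - 2 / 100000 ≤ W.A * (n * w) := by
      have e3 : (D / 2 - 1 / 100000) * (W.A / Λ) ≤ n * w * Λ * (W.A / Λ) :=
        mul_le_mul_of_nonneg_right (by linarith) (div_nonneg hA0 hΛ0.le)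
      have e4 : n * w * Λ * (W.A / Λ) = W.A * (n * w) := by
        field_simp
      have e5 : W.A / Λ ≤ 2 := by
        rw [div_le_iff₀ hΛ0]
        exact hA2
      have e6 : D / (2 * Λ) * W.A = D / 2 * (W.A / Λ) := by
        field_simp
      rw [e6]
      linarith
    have e7 : D / (2 * Λ) * (2 * Λ) = D := by field_simp
    have e8 : Real.log 2 - 2 * m * M - W.A * (n * w) + Real.log 2 * SP + 597 / 10000 * n +
        Real.log (100000 / Λ) - 1 ≤ D / (2 * Λ) * ((2 * Λ - W.A) - M) +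
        (Real.log 2 * SP + 597 / 10000 * n + 12) := by
      rw [e1]
      have : D / (2 * Λ) * ((2 * Λ - W.A) - M) = D / (2 * Λ) * (2 * Λ) - D / (2 * Λ) * W.A -
        D / (2 * Λ) * M := by ring
      rw [this, e7]
      linarith
    have e9 := mul_le_mul_of_nonneg_right e8 (hYX j hj').1
    have e10 : (D / (2 * Λ) * ((2 * Λ - W.A) - M) +
        (Real.log 2 * SP + 597 / 10000 * n + 12)) * W.YX j =
        D / (2 * Λ) * (W.YX j * ((2 * Λ - W.A) - M)) +
        (Real.log 2 * SP + 597 / 10000 * n + 12) * W.YX j := by ring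
    linarith
  rw [← hSP]
  refine fin_ineq _ W.X W.A Λ η L n D SP
    (∑ j ∈ Finset.range L, W.YX j * ((2 * Λ - W.A) - mix η W.YX j))
    (∑ j ∈ Finset.range L, ∑ g : ∀ l, W.J l, W.R g * W.yX j g *
      (∑ l, if B l (g l) then (1 : ℝ) else 0)) hΛ0 hη hLr hn5 hκ1 hκ2 (E_B W B) hA0 hA2
    hX0 hLbig ?_ ?_ ?_
  · have := hs η (2 * Λ - W.A) L W.YX hη0 hη1 (by linarith) hYX
    rw [hSX] at this
    exact this
  · calc ∑ j ∈ Finset.range L, W.YX j * ((2 * Λ - W.A) - mix η W.YX j)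
        ≤ ∑ j ∈ Finset.range L, W.YX j * (2 * Λ) := by
          refine Finset.sum_le_sum fun j hj => ?_
          have hj' := Finset.mem_range.1 hj
          refine mul_le_mul_of_nonneg_left ?_ (hYX j hj').1
          have := (mix_mem hη0.le hη1 W.YX L hYX j hj'.le).1
          linarith
      _ = 2 * Λ * (L * W.X) := by rw [← Finset.sum_mul, hSX]; ring
  · rw [Finset.mul_sum]
    refine (Finset.sum_le_sum hlev).trans (le_of_eq ?_)
    rw [Finset.sum_add_distrib, Finset.sum_add_distrib, Finset.sum_const, Finset.card_range,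
      nsmul_eq_mul, ← Finset.mul_sum, ← Finset.mul_sum, hSX]

theorem t (hp : PARStmt) (h1 : F1) (h2 : F2) (h6 : F6) (h7 : F7) (hb : HBStmt) (hs : SEQStmt) :
    F8 := by
  obtain ⟨mp, hp⟩ := hp (1 / 100000) (by norm_num)
  obtain ⟨m1, h1⟩ := h1
  obtain ⟨m7, h7⟩ := h7
  refine ⟨max mp (max m1 m7), fun m hm => ?_⟩
  obtain ⟨hn, hw, -, hΛ0, hΛε, -, -, -, -, -, -, hκ1, hκ2, hDn, hεn⟩ := hp m (by omega)
  obtain ⟨L1, h1⟩ := h1 m (by omega)
  obtain ⟨L7, h7⟩ := h7 m (by omega)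
  refine ⟨max L1 (max L7 (⌈800000 / (pη m * Lam m)⌉₊ + 1)), fun L hL W B hB => ?_⟩
  have hη0 : 0 < pη m := by unfold pη; positivity
  have hLpos : 0 < L := by omega
  have hLr : (0 : ℝ) < L := by exact_mod_cast hLpos
  have hnl : 0 < (pn m : ℝ) * Real.log 2 :=
    mul_pos (by exact_mod_cast hn) (Real.log_pos (by norm_num))
  refine core hb hs W (Lam m) hn hw hΛ0 hΛε rfl hLpos rfl ?_ ?_ hDn (by linarith) ?_
    (h1 L (by omega) W) ?_ B hB
  · rw [le_div_iff₀ hnl] at hκ1
    exact hκ1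
  · rw [div_le_iff₀ hnl] at hκ2
    exact hκ2
  · have e1 : 800000 / (pη m * Lam m) ≤ L :=
      (Nat.le_ceil _).trans (by exact_mod_cast (by omega))
    rw [div_le_iff₀ (by positivity)] at e1 ⊢
    linarith
  · intro l
    have := ((h7 L (by omega) W).1 l).1
    linarith

end Pool.Agent.Helper83.FC.F8
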